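import Pool.Agent.Lib.MP_9f2731_nt.GP.Rel.Spec

/-!
MP_9f2731_nt, directory QL (architect helper78): geometric progressions in the shifted primes with
quasi-polylogarithmic ratio. Definitions and the interfaces of the chapters:
Rw : DhjStmt → RelWStmt (relative Szemeredi theorem with two scales);
Sw : CorVStmt and MomVStmt (correlations of the majorant, uniform in the modulus V);
Pw : ApVStmt (primes = 1 modulo q, all q <= exp((log X)^ε) not divisible by one prime p0);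
Aw : RelWStmt → CorVStmt → MomVStmt → ApVStmt → MainStmt.
-/

namespace Pool.Agent.Lib.MP_9f2731_nt.QL

open Finset
open Pool.Agent.Lib.MP_9f2731_nt.GP
open Pool.Agent.Lib.MP_9f2731_nt.GP.Rel

/-! ### Relative Szemeredi theorem with two scales -/

section rel

variable {G : Type} [AddCommGroup G]

/-- sum of the first n entries of a tuple of elements of X -/
def inc {X : Finset G} {K : ℕ} (n : ℕ) (v : Fin K → X) : G :=
  ∑ t : Fin K, if (t : ℕ) < n then ((v t : X) : G) else 0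

/-- number of entries used at the vertex i in the system m -/
def mu (k m : ℕ) (i : Fin k) : ℕ := if (i : ℕ) = 0 then k * m + 1 else 1

/-- the j-th form of the system m: `∑ (i - j) y_i`, where y_0 is a sum of k m + 1 elements of X and the other
y_i are elements of X -/
def frw {X : Finset G} {K k : ℕ} (m : ℕ) (j : Fin k) (x : Fin k → Fin K → X) : G :=
  ∑ i : Fin k, (((i : ℕ) : ℤ) - ((j : ℕ) : ℤ)) • inc (mu k m i) (x i)

/-- the wide set X is almost invariant under small multiples of the elements of the narrow set Y -/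
def Shf [DecidableEq G] (D : ℕ) (θ : ℝ) (X Y : Finset G) : Prop :=
  ∀ y ∈ Y, ∀ c : ℤ, |c| ≤ (D : ℤ) →
    ((X.filter (fun x => x + c • y ∉ X)).card : ℝ) ≤ θ * (X.card : ℝ)

/-- narrow cube condition -/
def NLF [Fintype G] (k D : ℕ) (η : ℝ) (Y : Finset G) (ν : G → ℝ) : Prop :=
  ∀ A : Finset (Fin k → Bool),
    |av (fun z : G × (Fin k × Bool → Y) =>
      ∏ ω ∈ A, ν (z.1 + D • ∑ a, ((z.2 (a, ω a) : Y) : G))) - 1| ≤ η

/-- wide linear forms condition, in the mean over the base point -/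
def WLF [Fintype G] (k n0 : ℕ) (η : ℝ) (X : Finset G) (ν : G → ℝ) : Prop :=
  ∀ m : ℕ, m < n0 → ∀ S : Finset (Fin k × (Fin k → Bool)), (∀ p ∈ S, p.2 p.1 = false) →
    av (fun e : G => |av (fun x : Fin k × Bool → Fin (k * n0 + 1) → X =>
      ∏ p ∈ S, ν (e + frw m p.1 (pk p.2 x))) - 1|) ≤ η

end rel

/-- Relative Szemeredi theorem with two scales. The common difference is a sum of at most k n0 elements of X. -/
def RelWStmt : Prop :=
  ∀ (k : ℕ) (δ : ℝ), 2 ≤ k → 0 < δ → ∃ (c η θ : ℝ) (n0 : ℕ), 0 < c ∧ 0 < η ∧ 0 < θ ∧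
    ∀ (G : Type) [AddCommGroup G] [Fintype G] [DecidableEq G] (X Y : Finset G),
      X.Nonempty → Y.Nonempty → Shf k.factorial θ X Y →
      ∀ ν f : G → ℝ, (∀ x, 0 ≤ f x ∧ f x ≤ ν x) → NLF k k.factorial η Y ν → WLF k n0 η X ν →
      δ * (Fintype.card G : ℝ) ≤ ∑ x, f x →
      ∃ m : ℕ, m < n0 ∧ c ≤ av (fun e : G => av (fun x : Fin k → Fin (k * n0 + 1) → X =>
        ∏ j : Fin k, f (e + frw m j x)))

/-! ### Sieve -/

/-- the majorant: normalized square of the truncated divisor sum for numbers prime to V -/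
noncomputable def nuV (V : ℕ) (R : ℝ) (n : ℕ) : ℝ :=
  (V.totient / V : ℝ) * Real.log R * (3 / 4) * (Lam 2 R n) ^ 2

/-- all prime factors of m divide V -/
def SmV (V m : ℕ) : Prop := 1 ≤ m ∧ ∀ p : ℕ, p.Prime → p ∣ m → p ∣ V

/-- product of `1 + C/p` over the prime factors p of n which do not divide V -/
noncomputable def singV (C : ℝ) (V n : ℕ) : ℝ :=
  ∏ p ∈ n.primeFactors.filter (fun p => ¬ p ∣ V), (1 + C / (p : ℝ))

/-- Correlations of the majorant in one variable, uniform in V. -/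
def CorVStmt : Prop :=
  ∀ J : ℕ, ∃ κ C : ℝ, 0 < κ ∧ 2 * J * κ ≤ 1 ∧ 0 < C ∧ ∀ (X V w : ℕ) (S : Finset ℕ),
    C ≤ (X : ℝ) → 1 ≤ w → 1 ≤ V → (∀ p : ℕ, p.Prime → p ≤ w → p ∣ V) →
    (1 + Real.log V) ^ 6 ≤ Real.log X → S.card ≤ J → (∀ m ∈ S, SmV V m) →
    |(∑ b ∈ Icc 1 X, ∏ m ∈ S, nuV V ((X : ℝ) ^ κ) (V * b * m + 1)) / X - 1| ≤
      C * ((1 + Real.log V) ^ 6 / Real.log X + 1 / w + (singV C V (Del S) - 1))

/-- Moments of the majorant, uniform in V, m and κ. -/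
def MomVStmt : Prop :=
  ∀ J : ℕ, ∃ C : ℝ, 0 < C ∧ ∀ (κ : ℝ) (X V m : ℕ), 0 < κ → 2 * J * κ ≤ 1 → 3 ≤ X → 1 ≤ V → 1 ≤ m →
    (∑ b ∈ Icc 1 X, (nuV V ((X : ℝ) ^ κ) (V * b * m + 1)) ^ J) / X ≤ C * (Real.log X) ^ C

/-! ### Primes in progressions -/

/-- Primes 1 modulo q for all q ≤ exp((log X)^ε1) which are not divisible by one large prime p0 (lower bound). -/
def ApVStmt : Prop :=
  ∃ ε1 : ℝ, 0 < ε1 ∧ ∀ w1 : ℕ, ∃ X0 : ℝ, ∀ X : ℕ, X0 ≤ X → ∃ p0 : ℕ, p0.Prime ∧ w1 < p0 ∧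
    ∀ q : ℕ, 1 ≤ q → ¬ p0 ∣ q → Real.log q ≤ (Real.log X) ^ ε1 →
    (1 / 4 : ℝ) * (((q : ℝ) / q.totient) * X / Real.log X) ≤
      (((Icc 1 X).filter (fun b => (q * b + 1).Prime)).card : ℝ)

/-! ### The theorem -/

open Classical in
/-- Main statement: the multipliers form a set Bm, V is the product of the small primes (except at most one). If P is a
property of numbers which holds for a proportion δ of the primes V b m + 1 for every multiplier m, then for a positive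
proportion of the b there is a geometric progression of length k of numbers V b m r^i with the property P such that all
V b m r^i + 1 are primes. -/
def MainStmt : Prop :=
  ∀ (k : ℕ) (δ : ℝ), 3 ≤ k → 0 < δ → ∃ c X0 : ℝ, 0 < c ∧ ∀ X : ℕ, X0 ≤ X →
    ∃ (V : ℕ) (Bm : Finset ℕ), 1 ≤ V ∧ Bm.Nonempty ∧
      (∀ m ∈ Bm, 1 ≤ m ∧ ((V * m : ℕ) : ℝ) ≤ Real.exp ((Real.log (Real.log X)) ^ 6) ∧
        (1 / 4 : ℝ) * (X / Real.log X) ≤
          (((Icc 1 X).filter (fun b => (V * b * m + 1).Prime)).card : ℝ)) ∧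
      ∀ P : ℕ → Prop,
      (∀ m ∈ Bm, δ * (((Icc 1 X).filter (fun b => (V * b * m + 1).Prime)).card : ℝ) ≤
        (((Icc 1 X).filter (fun b => (V * b * m + 1).Prime ∧ P (V * b * m))).card : ℝ)) →
      c * X ≤ (((Icc 1 X).filter (fun b => ∃ m ∈ Bm, ∃ r : ℕ, 2 ≤ r ∧
        (r : ℝ) ≤ Real.exp ((Real.log (Real.log X)) ^ 3) ∧
        ∀ i : ℕ, i < k → (V * b * m * r ^ i + 1).Prime ∧ P (V * b * m * r ^ i))).card : ℝ)

end Pool.Agent.Lib.MP_9f2731_nt.QL
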