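import Pool.Agent.Lib.MP_9f2731_nt.QL.Aw.Spec
import Pool.Agent.Lib.MP_9f2731_nt.GP.HandIn

/-!
MP_9f2731_nt, THEOREM QL (helper78): the statements of the hand-ins SmallRatios and AlmostAllPrimes.
-/

namespace Pool.Agent.Lib.MP_9f2731_nt.QL

open Finset
open Pool.Agent.Lib.MP_9f2731_nt.QL.Aw

/-- from the exponent form to the sequence form -/
private theorem ql_seq {k A r : ℕ} (h : ∀ i : ℕ, i < k → (A * r ^ i + 1).Prime) :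
    ∃ p : ℕ → ℕ, p 1 = A + 1 ∧ (∀ i, 1 ≤ i → i ≤ k → (p i).Prime) ∧
      ∀ i, 1 ≤ i → (p (i + 1) : ℤ) = r * p i - (r - 1) := by
  refine ⟨fun i => A * r ^ (i - 1) + 1, by simp, fun i h1 h2 => h (i - 1) (by omega), fun i h1 => ?_⟩
  obtain ⟨j, rfl⟩ : ∃ j, i = j + 1 := ⟨i - 1, by omega⟩
  exact GP.gp_step A r j

theorem ql_small (h : FiaStmt) (k : ℕ) :
    ∃ c : ℝ, 0 < c ∧ ∃ X₀ : ℝ, ∀ X : ℕ, X₀ ≤ X →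
      c * X ≤ (({a : ℕ | 1 ≤ a ∧ a ≤ X ∧ ∃ s r : ℕ, 1 ≤ s ∧ 2 ≤ r ∧
        (s : ℝ) ≤ Real.exp (Real.log (Real.log X) ^ 6) ∧
        (r : ℝ) ≤ Real.exp (Real.log (Real.log X) ^ 3) ∧
        ∃ p : ℕ → ℕ, p 1 = a * s + 1 ∧ (∀ i, 1 ≤ i → i ≤ k → (p i).Prime) ∧
          ∀ i, 1 ≤ i → (p (i + 1) : ℤ) = r * p i - (r - 1)}.ncard : ℕ) : ℝ) := by
  obtain ⟨c, hc, X₀, hX⟩ := h k
  refine ⟨c, hc, X₀, fun X hX0 => (hX X hX0).trans ?_⟩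
  norm_cast
  refine Set.ncard_le_ncard ?_ ((Set.finite_Icc 1 X).subset fun a ha => ⟨ha.1, ha.2.1⟩)
  rintro a ⟨ha1, ha2, s, hs, hsX, r, hr2, hrX, hp⟩
  exact ⟨ha1, ha2, s, r, hs, hr2, hsX, hrX, ql_seq hp⟩

theorem ql_almost (h : FibStmt) (k : ℕ) (δ : ℝ) (hδ : 0 < δ) :
    ∃ X₀ : ℝ, ∀ X : ℕ, X₀ ≤ X → ∃ Q : ℕ, 1 ≤ Q ∧
      (Q : ℝ) ≤ Real.exp (Real.log (Real.log X) ^ 6) ∧
      X / (4 * Real.log X) ≤ (({b : ℕ | 1 ≤ b ∧ b ≤ X ∧ (Q * b + 1).Prime}.ncard : ℕ) : ℝ) ∧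
      (({b : ℕ | 1 ≤ b ∧ b ≤ X ∧ (Q * b + 1).Prime ∧ ¬ ∃ r : ℕ, 2 ≤ r ∧
        (r : ℝ) ≤ Real.exp (Real.log (Real.log X) ^ 3) ∧
        ∃ p : ℕ → ℕ, p 1 = Q * b + 1 ∧ (∀ i, 1 ≤ i → i ≤ k → (p i).Prime) ∧
          ∀ i, 1 ≤ i → (p (i + 1) : ℤ) = r * p i - (r - 1)}.ncard : ℕ) : ℝ) ≤
        δ * (({b : ℕ | 1 ≤ b ∧ b ≤ X ∧ (Q * b + 1).Prime}.ncard : ℕ) : ℝ) := by
  classical
  obtain ⟨X₀, hX⟩ := h k δ hδ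
  refine ⟨X₀, fun X hX0 => ?_⟩
  obtain ⟨Q, hQ, hQX, hcnt, hbad⟩ := hX X hX0
  have hset : {b : ℕ | 1 ≤ b ∧ b ≤ X ∧ (Q * b + 1).Prime} =
      ((Icc 1 X).filter (fun b => (Q * b + 1).Prime) : Finset ℕ) := by
    ext b
    simp only [Set.mem_ofPred_eq, coe_filter, mem_Icc, and_assoc]
  refine ⟨Q, hQ, hQX, ?_, ?_⟩
  · rw [hset, Set.ncard_coe_finset]
    refine le_trans (le_of_eq ?_) hcnt
    rw [mul_comm (4 : ℝ), ← div_div]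
    ring
  · rw [hset, Set.ncard_coe_finset]
    refine le_trans ?_ hbad
    rw [← Set.ncard_coe_finset, Nat.cast_le]
    refine Set.ncard_le_ncard ?_ (Finset.finite_toSet _)
    rintro b ⟨hb1, hb2, hb3, hb4⟩
    rw [coe_filter, Set.mem_ofPred_eq, mem_Icc]
    refine ⟨⟨hb1, hb2⟩, hb3, fun hSta => hb4 ?_⟩
    obtain ⟨r, hr2, hrX, hp⟩ := hSta
    exact ⟨r, hr2, hrX, ql_seq hp⟩

end Pool.Agent.Lib.MP_9f2731_nt.QL
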