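import Pool.Agent.Lib.MP_9f2731_nt.QL.Rw.All
import Pool.Agent.Lib.MP_9f2731_nt.QL.Sw.All
import Pool.Agent.Lib.MP_9f2731_nt.QL.Pw.All
import Pool.Agent.Lib.MP_9f2731_nt.QL.Aw.All
import Pool.Agent.Lib.MP_9f2731_nt.GP.Dhj.All

/-!
MP_9f2731_nt, THEOREM QL (helper78): geometric progressions in the shifted primes with quasi-polylogarithmic ratio,
all chapters together.
-/

namespace Pool.Agent.Lib.MP_9f2731_nt.QL

theorem qlMain : MainStmt :=
  Aw.awAll (Rw.rwAll GP.Dhj.dhjAll) Sw.swCor Sw.swMom Pw.pwAll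

theorem qlFia : Aw.FiaStmt := Aw.pFia qlMain

theorem qlFib : Aw.FibStmt := Aw.pFib qlMain

end Pool.Agent.Lib.MP_9f2731_nt.QL
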